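import Pool.Agent.H98.Inv2

set_option autoImplicit false
open scoped ENNReal

namespace Pool.Agent.Results.MP_74bc7f_pr.Loops

/-- `n`-step transition probabilities of simple random walk on the `d`-regular multigraph `a` -/
noncomputable def pn {V : Type} (a : V → V → ℕ) (d : ℕ) : ℕ → V → V → ℝ≥0∞
  | 0, x, y => Set.indicator {y} 1 x
  | n + 1, x, y => ∑' z, (a x z : ℝ≥0∞) / d * pn a d n z y

/-- connected `d`-regular multigraph with symmetric multiplicities `a` -/
def Reg {V : Type} (a : V → V → ℕ) (d : ℕ) : Prop :=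
  (∀ x y, a x y = a y x) ∧ (∀ x, ∑' y, (a x y : ℝ≥0∞) = d) ∧
  ∀ x y, Relation.ReflTransGen (fun u v => a u v ≠ 0) x y

/-- mass transport principle for the random rooted graph `(a, o)`, `o` distributed as `π` -/
def Unimod {V : Type} (a : V → V → ℕ) (π : PMF V) : Prop :=
  ∀ f : V → V → ℝ≥0∞,
    (∀ φ : V ≃ V, (∀ x y, a (φ x) (φ y) = a x y) → ∀ x y, f (φ x) (φ y) = f x y) →
    ∑' o, π o * ∑' x, f o x = ∑' o, π o * ∑' x, f x o

lemma pn_same {V : Type} (a : V → V → ℕ) (d n : ℕ) :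
    ∀ x y, pn a d n x y = Pool.Agent.H98.Inv.pn a d n x y := by
  induction n with
  | zero => intro x y; rfl
  | succ n ih => intro x y; simp only [pn, Pool.Agent.H98.Inv.pn, ih]

open Pool.Agent.H98.Inv in
theorem result (d : ℕ) (hd : 3 ≤ d) (r : ℝ) (hr0 : 0 < r) (hr1 : r ≤ 1) :
    ∃ (V : Type) (_ : Infinite V) (a : V → V → ℕ) (π : PMF V), Reg a d ∧ Unimod a π ∧
      ENNReal.ofReal r ≤ π.toOuterMeasure {o | 1 ≤ a o o} ∧
      ∀ o n, pn a d n o o ≤ ENNReal.ofReal ((2 * √((d : ℝ) - 1) / d + 2 * r) ^ n) := by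
  obtain ⟨q, rfl⟩ : ∃ q, d = q + 1 := ⟨d - 1, by omega⟩
  have hq : 2 ≤ q := by omega
  have hq' : (2 : ℝ) ≤ q := by exact_mod_cast hq
  have hex : ∃ R : ℕ, 1 / r < 2 * (q : ℝ) ^ (R + 1) - 1 := by
    obtain ⟨n, hn⟩ := pow_unbounded_of_one_lt (1 / r + 1) (show (1 : ℝ) < q by linarith)
    refine ⟨n, ?_⟩
    have : (0 : ℝ) < q ^ n := by positivity
    rw [pow_succ]; nlinarith
  classical
  set R := Nat.find hex with hR
  have h1 : 1 / r < 2 * (q : ℝ) ^ (R + 1) - 1 := Nat.find_spec hex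
  have h2 : 2 * (q : ℝ) ^ R - 1 ≤ 1 / r := by
    rcases Nat.eq_zero_or_pos R with e | e
    · rw [e, pow_zero, le_div_iff₀ hr0]; linarith
    · have := Nat.find_min hex (show R - 1 < Nat.find hex by omega)
      rw [show R - 1 + 1 = R by omega] at this
      exact not_lt.mp this
  haveI : Nontrivial (Fin q) := Fin.nontrivial_iff_two_le.mpr hq
  haveI : Nonempty {l : List (Fin q) // l.length = R} :=
    ⟨⟨List.replicate R ⟨0, by omega⟩, List.length_replicate⟩⟩
  set σ := √(q : ℝ)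
  have hσ2 : σ ^ 2 = q := Real.sq_sqrt (by positivity)
  have hσ : 1 < σ := Real.lt_sqrt_of_sq_lt (by linarith)
  refine ⟨VV q R, inferInstance, mult rv,
    (PMF.uniformOfFintype (BB q R)).map fun b => (1, b), ⟨mult_symm rv_rv, fun x => ?_, conn⟩,
    fun f hf => mtp f fun g => hf ((Equiv.mulRight g).prodCongr (Equiv.refl _)) (mult_mul g), ?_,
    fun o n => ?_⟩
  · simpa using mult_sum rv x fun _ => 1
  · rw [PMF.toOuterMeasure_map_apply]
    have h3 : ({⟨[], Nat.zero_le _⟩} : Set (BB q R)) ⊆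
        (fun b => ((1, b) : VV q R)) ⁻¹' {o | 1 ≤ mult rv o o} := by
      rintro _ rfl
      exact Nat.one_le_iff_ne_zero.mpr (mult_ne (1, ⟨[], Nat.zero_le _⟩) none)
    refine le_trans ?_ (MeasureTheory.measure_mono h3)
    rw [PMF.toOuterMeasure_apply_singleton, PMF.uniformOfFintype_apply, ← ENNReal.ofReal_natCast,
      ← ENNReal.ofReal_inv_of_pos (by exact_mod_cast Fintype.card_pos)]
    apply ENNReal.ofReal_le_ofReal
    have h4 : (Fintype.card (BB q R) : ℝ) + 1 ≤ 2 * q ^ R := by exact_mod_cast card_BB q R hq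
    rw [le_inv_comm₀ hr0 (by exact_mod_cast Fintype.card_pos), ← one_div]
    linarith
  · have h5 := Vv_sub hσ R
    rw [pn_same]
    refine (schur rv_rv (by omega) (tt σ) (tt_pos hσ) (tt_rv hσ) (by linarith [h5.1])
      (tt_sum hσ hσ2) o n).trans (ENNReal.ofReal_le_ofReal ?_)
    have h6 : Vv σ R - 1 / σ ≤ 2 * r * (q + 1) := by
      refine h5.2.trans ?_
      rw [hσ2, div_le_iff₀ (by positivity)]
      rw [div_lt_iff₀ hr0] at h1
      have : (0 : ℝ) < q ^ (R + 1) := by positivity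
      nlinarith [mul_pos hr0 this]
    have h7 : (0 : ℝ) < q + 1 := by positivity
    refine pow_le_pow_left₀ (by have := h5.1; positivity) ?_ n
    push_cast
    rw [add_sub_cancel_right, add_div]
    gcongr
    rwa [div_le_iff₀ h7]

end Pool.Agent.Results.MP_74bc7f_pr.Loops
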